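import Pool.Agent.Y354.DC3.Stm2

/-!
# From the bound for every `n` to the density
-/

set_option autoImplicit false

open Finset Filter Topology

namespace Pool.Agent.Y354.DC3

open Pool.Agent.H120R2.Clique

theorem choose_three (n : ℕ) : ((n.choose 3 : ℕ) : ℝ) = (n : ℝ) * (n - 1) * (n - 2) / 6 := by
  have h := Nat.cast_choose_eq_ascPochhammer_div ℝ n 3
  rw [h]
  rcases Nat.lt_or_ge n 3 with h3 | h3
  · interval_cases n <;> simp [ascPochhammer, Nat.factorial] <;> norm_num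
  · have e : ((n - (3 - 1) : ℕ) : ℝ) = (n : ℝ) - 2 := by
      rw [Nat.cast_sub (by omega)]; norm_num
    rw [e]
    simp [ascPochhammer, Nat.factorial]
    ring

theorem dens (h : S_EXB) (m : ℕ) (hm : 3 ≤ m) :
    turanDensity 3 m ≤ 1 - 49 / 20 / ((m : ℝ) - 1) ^ 2 := by
  set C : ℝ := 1 - 49 / 20 / ((m : ℝ) - 1) ^ 2 with hC
  have h1 := ratio_tendsto 3 m
  have h2 : Tendsto (fun n : ℕ => C * ((1 : ℝ) / ((1 - 1 / (n : ℝ)) * (1 - 2 / (n : ℝ))))) atTop
      (𝓝 (C * (1 / ((1 - 0) * (1 - 0))))) := by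
    have ha : Tendsto (fun n : ℕ => (1 : ℝ) / (n : ℝ)) atTop (𝓝 0) :=
      tendsto_const_div_atTop_nhds_zero_nat 1
    have hb : Tendsto (fun n : ℕ => (2 : ℝ) / (n : ℝ)) atTop (𝓝 0) :=
      tendsto_const_div_atTop_nhds_zero_nat 2
    refine Tendsto.const_mul C (Tendsto.div tendsto_const_nhds ?_ (by norm_num))
    exact (tendsto_const_nhds.sub ha).mul (tendsto_const_nhds.sub hb)
  have e : C * (1 / ((1 - 0) * (1 - 0))) = C := by norm_num
  rw [e] at h2
  refine le_of_tendsto_of_tendsto h1 h2 ?_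
  filter_upwards [eventually_ge_atTop 3] with n hn
  have hn' : (3 : ℝ) ≤ n := by exact_mod_cast hn
  have hc : (0 : ℝ) < ((n.choose 3 : ℕ) : ℝ) := by
    exact_mod_cast Nat.choose_pos hn
  have hb := h n m hm
  rw [div_le_iff₀ hc]
  refine hb.trans (le_of_eq ?_)
  rw [← hC, choose_three]
  have h0 : (n : ℝ) ≠ 0 := by positivity
  have h1 : (n : ℝ) - 1 ≠ 0 := by linarith
  have h2 : (n : ℝ) - 2 ≠ 0 := by linarith
  have h3 : 1 - 1 / (n : ℝ) ≠ 0 := by
    intro hh; apply h1; field_simp at hh; linarith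
  have h4 : 1 - 2 / (n : ℝ) ≠ 0 := by
    intro hh; apply h2; field_simp at hh; linarith
  field_simp

end Pool.Agent.Y354.DC3
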