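import Pool.Agent.Y354.DC3.Dens
import Pool.Agent.Y349.DC3.Main
import Pool.Agent.Y532.DC3.Exb

/-!
# Large cliques in 3-graphs: the last steps for an arbitrary constant

The proofs are those of helper349 (`Y349.DC3.s_main`) and helper532 (`Y532.DC3.s_exb`) with the
constant as a parameter.
-/

set_option autoImplicit false

open Finset Filter Topology
open scoped Classical

namespace Pool.Agent.Y354.DC3

open Pool.Agent.H120R2.Clique

/-- for regular weights, large `a` -/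
def RGc (c : ℝ) : Prop :=
  ∃ A : ℕ, ∀ (V : Type) [Fintype V] (μ : V → ℝ) (N : V → V → V → Prop), Sy N →
  Pr μ → ∀ t : ℝ, (∀ w, 0 < μ w → dg μ N w ≤ t) → ∀ a : ℕ, A ≤ a → Lg μ N a →
    c ≤ (a : ℝ) ^ 2 * t

/-- main inequality: no independent tuple of length `m` -/
def MAINc (c : ℝ) : Prop := ∀ (V : Type) [Fintype V] (N : V → V → V → Prop), Sy N →
  ∀ m : ℕ, 3 ≤ m → (∀ x : Fin m → V, ¬ Ind N x) → ∀ ν : V → ℝ, Pr ν →
    c ≤ ((m : ℝ) - 1) ^ 2 * tt ν N

/-- the bound for every number of vertices -/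
def EXBc (c : ℝ) : Prop := ∀ n m : ℕ, 3 ≤ m →
  (ex n 3 m : ℝ) ≤ (1 - c / ((m : ℝ) - 1) ^ 2) * (n : ℝ) ^ 3 / 6

theorem main_c {c : ℝ} : RGc c → S_MIN → S_CO → MAINc c := by
  intro hRG hMIN hCO V _ N hN m hm hno ν hν
  have hne : Nonempty V := by
    by_contra hcon
    rw [not_nonempty_iff] at hcon
    have h1 := hν.2
    rw [univ_eq_empty, sum_empty] at h1
    exact zero_ne_one h1
  obtain ⟨μ, hμ, hmin, hreg⟩ := hMIN V N hN
  obtain ⟨A, hA⟩ := hRG
  have hex : ∃ a, ¬ ∃ x : Fin (a + 1) → V, Ind N x ∧ ∀ i, 0 < μ (x i) := by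
    refine ⟨m - 1, ?_⟩
    rintro ⟨x, hx, -⟩
    obtain ⟨m', rfl⟩ : ∃ m', m = m' + 1 := ⟨m - 1, by omega⟩
    exact hno x hx
  set a := Nat.find hex with ha
  have ha1 : a ≤ m - 1 := by
    apply Nat.find_min' hex
    rintro ⟨x, hx, -⟩
    obtain ⟨m', rfl⟩ : ∃ m', m = m' + 1 := ⟨m - 1, by omega⟩
    exact hno x hx
  have hspec := Nat.find_spec hex
  rw [← ha] at hspec
  have hapos : 1 ≤ a := by
    by_contra hcon
    have h0 : a = 0 := by omega
    rw [h0] at hspec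
    apply hspec
    have h1 : ∃ v, 0 < μ v := by
      by_contra hc
      push Not at hc
      have h2 := sum_nonpos fun v (_ : v ∈ (univ : Finset V)) => hc v
      rw [hμ.2] at h2
      linarith
    obtain ⟨v, hv⟩ := h1
    refine ⟨fun _ => v, ?_, fun _ => hv⟩
    intro i j l hij
    exact absurd (Fin.ext (by omega)) hij
  have hLg : Lg μ N a := by
    refine ⟨?_, fun x hx hx2 => hspec ⟨x, hx2, hx⟩⟩
    by_contra hcon
    have h1 : a - 1 < a := by omega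
    have h2 := Nat.find_min hex (m := a - 1) (by rw [← ha]; exact h1)
    apply h2
    rw [show a - 1 + 1 = a by omega]
    by_contra hcon2
    exact hcon hcon2
  obtain ⟨h1, h2, h3, h4⟩ := hCO V μ N hN hμ (tt μ N) hreg a hLg (A + 1) (by omega)
  have h5 := hA (V × Fin (A + 1)) (fun z => μ z.1 / ((A + 1 : ℕ) : ℝ)) (NC N (A + 1)) h1 h2
    (tt μ N / ((A + 1 : ℕ) : ℝ) ^ 2) h3 ((A + 1) * a) (by nlinarith) h4
  have hs : (0 : ℝ) < ((A + 1 : ℕ) : ℝ) := by positivity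
  have h6 : (((A + 1) * a : ℕ) : ℝ) ^ 2 * (tt μ N / ((A + 1 : ℕ) : ℝ) ^ 2) =
      (a : ℝ) ^ 2 * tt μ N := by
    rw [Nat.cast_mul]
    field_simp
  rw [h6] at h5
  have h7 : (a : ℝ) ≤ (m : ℝ) - 1 := by
    have : a + 1 ≤ m := by omega
    have : ((a + 1 : ℕ) : ℝ) ≤ m := by exact_mod_cast this
    push_cast at this
    linarith
  have h8 := Pool.Agent.Y349.DC3.tt_nonneg μ N hμ.1
  have h9 := hmin ν hν
  calc c ≤ (a : ℝ) ^ 2 * tt μ N := h5
    _ ≤ ((m : ℝ) - 1) ^ 2 * tt ν N := by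
        apply mul_le_mul _ h9 h8 (by positivity)
        exact pow_le_pow_left₀ (Nat.cast_nonneg _) h7 2


theorem bound_c {c : ℝ} (h : MAINc c) {n m : ℕ} (hn : 0 < n) (hm : 3 ≤ m) (G : Finset (Finset (Fin n)))
    (h3 : ∀ A ∈ G, A.card = 3) (hG : ¬ HasClique G 3 m) :
    (G.card : ℝ) ≤ (1 - c / ((m : ℝ) - 1) ^ 2) * (n : ℝ) ^ 3 / 6 := by
  have hn' : (0 : ℝ) < n := by exact_mod_cast hn
  have hpr : Pr (fun _ : Fin n => (1 : ℝ) / n) := by
    refine ⟨fun _ => by positivity, ?_⟩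
    rw [Finset.sum_const, Finset.card_univ, Fintype.card_fin, nsmul_eq_mul]
    field_simp
  have h1 := h (Fin n) (Pool.Agent.Y532.DC3.NG G) (Pool.Agent.Y532.DC3.ng_sy G) m hm (Pool.Agent.Y532.DC3.ng_ind hm G hG) _ hpr
  rw [Pool.Agent.Y532.DC3.tt_unif] at h1
  have h2 : (6 * (G.card : ℝ)) ≤
      ((univ.filter (fun t : Fin n × Fin n × Fin n => ¬ Pool.Agent.Y532.DC3.NG G t.2.1 t.2.2 t.1)).card : ℝ) := by
    exact_mod_cast Pool.Agent.Y532.DC3.six_le G h3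
  have hm' : (2 : ℝ) ≤ (m : ℝ) - 1 := by
    have : (3 : ℝ) ≤ m := by exact_mod_cast hm
    linarith
  set M : ℝ := ((m : ℝ) - 1) ^ 2 with hM
  have hM0 : 0 < M := by positivity
  set T : ℝ := ((univ.filter (fun t : Fin n × Fin n × Fin n => ¬ Pool.Agent.Y532.DC3.NG G t.2.1 t.2.2 t.1)).card : ℝ)
    with hT
  have hn3 : (0 : ℝ) < (n : ℝ) ^ 3 := by positivity
  have h4 : c / M ≤ 1 - 6 * (G.card : ℝ) / (n : ℝ) ^ 3 := by
    rw [div_le_iff₀ hM0]
    have h5 : (1 / (n : ℝ)) ^ 3 * ((n : ℝ) ^ 3 - T) = 1 - T / (n : ℝ) ^ 3 := by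
      field_simp
    rw [h5] at h1
    have h6 : 6 * (G.card : ℝ) / (n : ℝ) ^ 3 ≤ T / (n : ℝ) ^ 3 := div_le_div_of_nonneg_right h2 hn3.le
    nlinarith
  have h7 : 6 * (G.card : ℝ) / (n : ℝ) ^ 3 ≤ 1 - c / M := by linarith
  rw [div_le_iff₀ hn3] at h7
  linarith

theorem exb_c {c : ℝ} (hc : c ≤ 4) : MAINc c → EXBc c := by
  intro h n m hm
  have hm' : (2 : ℝ) ≤ (m : ℝ) - 1 := by
    have : (3 : ℝ) ≤ m := by exact_mod_cast hm
    linarith
  have hpos : (0 : ℝ) ≤ (1 - c / ((m : ℝ) - 1) ^ 2) * (n : ℝ) ^ 3 / 6 := by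
    have h1 : c / ((m : ℝ) - 1) ^ 2 ≤ 1 := by
      rw [div_le_one (by positivity)]
      nlinarith
    have h2 : 0 ≤ 1 - c / ((m : ℝ) - 1) ^ 2 := by linarith
    positivity
  by_cases h0 : ex n 3 m = 0
  · rw [h0, Nat.cast_zero]
    exact hpos
  have hn : 0 < n := by
    rcases Nat.eq_zero_or_pos n with rfl | hn
    · exfalso
      apply h0
      unfold ex
      apply Nat.le_zero.1
      refine Finset.sup_le fun G hG => ?_
      rw [mem_filter, mem_powerset] at hG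
      have := Finset.card_le_card hG.1
      simpa using this
    · exact hn
  have hnon : ((((univ : Finset (Fin n)).powersetCard 3).powerset).filter
      (fun G => ¬ HasClique G 3 m)).Nonempty := by
    by_contra hcon
    rw [Finset.not_nonempty_iff_eq_empty] at hcon
    apply h0
    unfold ex
    rw [hcon]
    simp
  obtain ⟨G, hG, he⟩ := Finset.exists_mem_eq_sup _ hnon Finset.card
  rw [mem_filter, mem_powerset] at hG
  have he' : ex n 3 m = G.card := he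
  rw [he']
  exact bound_c h hn hm G (fun A hA => (mem_powersetCard.mp (hG.1 hA)).2) hG.2


theorem dens_c {c : ℝ} (h : EXBc c) (m : ℕ) (hm : 3 ≤ m) :
    turanDensity 3 m ≤ 1 - c / ((m : ℝ) - 1) ^ 2 := by
  set C : ℝ := 1 - c / ((m : ℝ) - 1) ^ 2 with hC
  have h1 := ratio_tendsto 3 m
  have h2 : Tendsto (fun n : ℕ => C * ((1 : ℝ) / ((1 - 1 / (n : ℝ)) * (1 - 2 / (n : ℝ))))) atTop
      (𝓝 (C * (1 / ((1 - 0) * (1 - 0))))) := by
    have ha : Tendsto (fun n : ℕ => (1 : ℝ) / (n : ℝ)) atTop (𝓝 0) :=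
      tendsto_const_div_atTop_nhds_zero_nat 1
    have hb : Tendsto (fun n : ℕ => (2 : ℝ) / (n : ℝ)) atTop (𝓝 0) :=
      tendsto_const_div_atTop_nhds_zero_nat 2
    refine Tendsto.const_mul C (Tendsto.div tendsto_const_nhds ?_ (by norm_num))
    exact (tendsto_const_nhds.sub ha).mul (tendsto_const_nhds.sub hb)
  have e : C * (1 / ((1 - 0) * (1 - 0))) = C := by norm_num
  rw [e] at h2
  refine le_of_tendsto_of_tendsto h1 h2 ?_
  filter_upwards [eventually_ge_atTop 3] with n hn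
  have hn' : (3 : ℝ) ≤ n := by exact_mod_cast hn
  have hc : (0 : ℝ) < ((n.choose 3 : ℕ) : ℝ) := by
    exact_mod_cast Nat.choose_pos hn
  have hb := h n m hm
  rw [div_le_iff₀ hc]
  refine hb.trans (le_of_eq ?_)
  rw [← hC, choose_three]
  have h0 : (n : ℝ) ≠ 0 := by positivity
  have h1 : (n : ℝ) - 1 ≠ 0 := by linarith
  have h2 : (n : ℝ) - 2 ≠ 0 := by linarith
  have h3 : 1 - 1 / (n : ℝ) ≠ 0 := by
    intro hh; apply h1; field_simp at hh; linarith
  have h4 : 1 - 2 / (n : ℝ) ≠ 0 := by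
    intro hh; apply h2; field_simp at hh; linarith
  field_simp


end Pool.Agent.Y354.DC3
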