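import Pool.Agent.Y354.DC3.Stm3

/-!
# The improved inequality from its two levels
-/

set_option autoImplicit false

open Finset
open scoped Classical

namespace Pool.Agent.Y354.DC3

theorem E_sub' {V : Type} [Fintype V] (μ : V → ℝ) (N : V → V → V → Prop) (k : ℕ)
    (F G : (Fin k → V) → ℝ) : E μ N k (fun x => F x - G x) = E μ N k F - E μ N k G := by
  unfold E
  rw [← Finset.sum_sub_distrib]
  refine Finset.sum_congr rfl fun x _ => ?_
  ring

theorem E_smul' {V : Type} [Fintype V] (μ : V → ℝ) (N : V → V → V → Prop) (k : ℕ)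
    (c : ℝ) (F : (Fin k → V) → ℝ) : E μ N k (fun x => c * F x) = c * E μ N k F := by
  unfold E
  rw [Finset.mul_sum]
  refine Finset.sum_congr rfl fun x _ => ?_
  ring

theorem s_j4c (hDT : S_DT) (hBB : S_BB) (hUP : S_UP) (hLO : S_LO) : S_J4c := by
  intro V _ μ N hN hμ t ht k
  have h1 := hLO V μ N hN hμ.1 t ht k
  have h2 := hUP V μ N hN hμ k
  have h3 := hBB V μ N hN k
  have h4 := hDT V μ N k
  set X := E μ N (k + 1) (fun y => ∑ v, μ v * I (Al N y v) *
      ∑ u, μ u * ((2 - I (Al N y u)) * (S N y v u : ℝ))) with hX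
  set Z := E μ N (k + 1) (fun y => ∑ v, μ v * I (Al N y v) * ∑ u, μ u * (bb N y v u : ℝ)) with hZ
  have e : E μ N (k + 1) (fun y => ∑ v, μ v * I (Al N y v) *
      ∑ u, μ u * ((2 - I (Al N y u)) * (S N y v u : ℝ) - 5 / 6 * (bb N y v u : ℝ))) =
      X - 5 / 6 * Z := by
    rw [hX, hZ, ← E_smul', ← E_sub']
    refine congrArg _ (funext fun y => ?_)
    rw [Finset.mul_sum, ← Finset.sum_sub_distrib]
    refine Finset.sum_congr rfl fun v _ => ?_
    have e2 : ∑ u, μ u * ((2 - I (Al N y u)) * (S N y v u : ℝ) - 5 / 6 * (bb N y v u : ℝ)) =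
        ∑ u, μ u * ((2 - I (Al N y u)) * (S N y v u : ℝ)) -
          5 / 6 * ∑ u, μ u * (bb N y v u : ℝ) := by
      rw [Finset.mul_sum, ← Finset.sum_sub_distrib]
      refine Finset.sum_congr rfl fun u _ => ?_
      ring
    rw [e2]
    ring
  rw [e] at h2
  have hk : (0 : ℝ) < (k : ℝ) + 2 := by positivity
  have h5 : 4 / 3 * (P μ N (k + 2) - P μ N (k + 3)) / ((k : ℝ) + 2) + 1 / 3 * Y μ N (k + 1) ≤
      X - 5 / 6 * Z := by
    rw [div_add' _ _ _ hk.ne', div_le_iff₀ hk]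
    linarith
  rw [h4]
  linarith

end Pool.Agent.Y354.DC3
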