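import Mathlib

/-!
# Large cliques in 3-graphs: definitions and statements

`V` is a finite set with weights `μ`, `N` a symmetric ternary relation (the triples which are not
edges of the 3-graph, together with the triples with a repetition).  A tuple is independent
if no three of its positions are related by `N`.
-/

set_option autoImplicit false

open Finset
open scoped Classical

namespace Pool.Agent.Y354.DC3

/-- indicator -/
noncomputable def I (p : Prop) : ℝ := if p then 1 else 0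

/-- `N` is symmetric -/
def Sy {V : Type} (N : V → V → V → Prop) : Prop :=
  (∀ a b c, N a b c → N b a c) ∧ (∀ a b c, N a b c → N a c b)

/-- the tuple `x` is independent -/
def Ind {V : Type} (N : V → V → V → Prop) {k : ℕ} (x : Fin k → V) : Prop :=
  ∀ i j l : Fin k, i ≠ j → i ≠ l → j ≠ l → ¬ N (x i) (x j) (x l)

/-- the vertex `v` may be added to the tuple `x` -/
def Al {V : Type} (N : V → V → V → Prop) {k : ℕ} (x : Fin k → V) (v : V) : Prop :=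
  ∀ i j : Fin k, i ≠ j → ¬ N v (x i) (x j)

/-- `v` and `u` are adjacent with respect to `x` -/
def Ad {V : Type} (N : V → V → V → Prop) {k : ℕ} (x : Fin k → V) (v u : V) : Prop :=
  ∃ l : Fin k, N v u (x l)

/-- sum over the independent `k`-tuples -/
noncomputable def E {V : Type} [Fintype V] (μ : V → ℝ) (N : V → V → V → Prop) (k : ℕ)
    (F : (Fin k → V) → ℝ) : ℝ :=
  ∑ x : Fin k → V, I (Ind N x) * (∏ i, μ (x i)) * F x

/-- measure of the independent `k`-tuples -/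
noncomputable def P {V : Type} [Fintype V] (μ : V → ℝ) (N : V → V → V → Prop) (k : ℕ) : ℝ :=
  E μ N k (fun _ => 1)

/-- adjacent pairs of allowed vertices -/
noncomputable def Y {V : Type} [Fintype V] (μ : V → ℝ) (N : V → V → V → Prop) (k : ℕ) : ℝ :=
  E μ N k (fun x => ∑ v, ∑ u, μ v * μ u * I (Al N x v ∧ Al N x u ∧ Ad N x v u))

/-- squares of the degrees -/
noncomputable def D {V : Type} [Fintype V] (μ : V → ℝ) (N : V → V → V → Prop) (k : ℕ) : ℝ :=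
  E μ N k (fun x => ∑ w, μ w * I (Al N x w) * (∑ v, μ v * I (Al N x v ∧ Ad N x w v)) ^ 2)

/-- degree of a vertex -/
noncomputable def dg {V : Type} [Fintype V] (μ : V → ℝ) (N : V → V → V → Prop) (w : V) : ℝ :=
  ∑ v, ∑ u, μ v * μ u * I (N v u w)

/-- measure of the related triples -/
noncomputable def tt {V : Type} [Fintype V] (μ : V → ℝ) (N : V → V → V → Prop) : ℝ :=
  ∑ w, μ w * dg μ N w

/-- the weight is a probability -/
def Pr {V : Type} [Fintype V] (μ : V → ℝ) : Prop := (∀ v, 0 ≤ μ v) ∧ ∑ v, μ v = 1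

/-- the triangle `w, v, u` is bad at `w` -/
def Bad {V : Type} (N : V → V → V → Prop) {k : ℕ} (y : Fin k → V) (w v u : V) : Prop :=
  ¬ N w v u ∧ ∃ l j : Fin k, l ≠ j ∧ (∀ m, N v u (y m) ↔ m = l) ∧ (∀ m, N w v (y m) ↔ m = j) ∧
    (∀ m, N w u (y m) ↔ m = j)

/-- twice the share of the pair `v, u` at the position of `w` -/
noncomputable def tw {V : Type} (N : V → V → V → Prop) {k : ℕ} (y : Fin k → V) (w v u : V) : ℕ :=
  if ¬ (Al N y v ∧ Al N y u ∧ Ad N y v u) then 0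
  else if Ad N y w v ∧ Ad N y w u then (if Bad N y w v u then 1 else 2)
  else if Ad N y w v ∨ Ad N y w u then 1 else 0

/-- number of positions of `x` related to `v, u` -/
noncomputable def S {V : Type} (N : V → V → V → Prop) {k : ℕ} (x : Fin k → V) (v u : V) : ℕ :=
  (univ.filter (fun l : Fin k => N v u (x l))).card

/-- the tuple without its `i`-th entry -/
def rm {V : Type} {k : ℕ} (x : Fin (k + 1) → V) (i : Fin (k + 1)) : Fin k → V :=
  fun j => x (i.succAbove j)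

/-! ### statements -/

/-- exchange: sum over independent `(k+1)`-tuples, the `i`-th entry being chosen last -/
def S_EX : Prop := ∀ (V : Type) [Fintype V] (μ : V → ℝ) (N : V → V → V → Prop), Sy N →
  ∀ (k : ℕ) (i : Fin (k + 1)) (F : (Fin k → V) → V → ℝ),
    E μ N (k + 1) (fun x => F (rm x i) (x i)) =
      E μ N k (fun y => ∑ w, μ w * I (Al N y w) * F y w)

/-- relations between `x` and `x` without one entry -/
def S_AL : Prop := ∀ (V : Type) (N : V → V → V → Prop), Sy N →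
  ∀ (k : ℕ) (i : Fin (k + 1)) (x : Fin (k + 1) → V),
    (Ind N x ↔ Ind N (rm x i) ∧ Al N (rm x i) (x i)) ∧
    (∀ v, Al N x v ↔ Al N (rm x i) v ∧ ¬ Ad N (rm x i) (x i) v) ∧
    (∀ v u, Ad N x v u ↔ Ad N (rm x i) v u ∨ N v u (x i))

/-- a vertex which is not allowed has at most two critical positions -/
def S_CR : Prop := ∀ (V : Type) (N : V → V → V → Prop), Sy N →
  ∀ (k : ℕ) (x : Fin (k + 1) → V) (u : V),
    ((univ.filter (fun i : Fin (k + 1) => Al N (rm x i) u ∧ Ad N (rm x i) (x i) u)).card : ℝ) ≤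
      2 * (1 - I (Al N x u))

/-- the pointwise inequality -/
def S_T1 : Prop := ∀ (V : Type) (N : V → V → V → Prop), Sy N →
  ∀ (k : ℕ) (x : Fin (k + 1) → V) (v u : V),
    (if Al N x v ∧ Al N x u ∧ Ad N x v u then 2 else 0) + ∑ i : Fin (k + 1), tw N (rm x i) (x i) v u
      ≤ 2 * S N x v u

/-- symmetrisation -/
def S_T2 : Prop := ∀ (V : Type) [Fintype V] (μ : V → ℝ) (N : V → V → V → Prop), Sy N →
  (∀ v, 0 ≤ μ v) → ∀ (k : ℕ) (y : Fin k → V),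
    5 / 3 * ∑ w, μ w * I (Al N y w) * (∑ v, μ v * I (Al N y v ∧ Ad N y w v)) ^ 2 ≤
      ∑ w, μ w * I (Al N y w) * ∑ v, ∑ u, μ v * μ u * (tw N y w v u : ℝ)

/-- first Cauchy-Schwarz inequality -/
def S_J1 : Prop := ∀ (V : Type) [Fintype V] (μ : V → ℝ) (N : V → V → V → Prop), Sy N →
  (∀ v, 0 ≤ μ v) → ∀ k : ℕ, P μ N (k + 1) ^ 2 ≤ P μ N k * (P μ N (k + 2) + Y μ N k)

/-- critical positions -/
def S_J2 : Prop := ∀ (V : Type) [Fintype V] (μ : V → ℝ) (N : V → V → V → Prop), Sy N →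
  Pr μ → ∀ k : ℕ, ((k : ℝ) + 1) * Y μ N k ≤ 2 * (P μ N (k + 1) - P μ N (k + 2))

/-- regularity -/
def S_J4 : Prop := ∀ (V : Type) [Fintype V] (μ : V → ℝ) (N : V → V → V → Prop), Sy N →
  (∀ v, 0 ≤ μ v) → ∀ t : ℝ, (∀ w, 0 < μ w → dg μ N w ≤ t) → ∀ k : ℕ,
    Y μ N (k + 1) + 5 / 6 * ((k : ℝ) + 1) * D μ N k ≤ ((k : ℝ) + 1) * t * P μ N (k + 1)

/-- second Cauchy-Schwarz inequality -/
def S_J5 : Prop := ∀ (V : Type) [Fintype V] (μ : V → ℝ) (N : V → V → V → Prop), Sy N →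
  (∀ v, 0 ≤ μ v) → ∀ k : ℕ, Y μ N k ^ 2 ≤ D μ N k * P μ N (k + 1)

/-- the recursion forces `49/20` -/
def S_CH : Prop := ∃ A : ℕ, ∀ a : ℕ, A ≤ a → ∀ (p y : ℕ → ℝ) (t : ℝ),
  p 0 = 1 → p 1 = 1 → p 2 = 1 → (∀ k, k ≤ a → 0 < p k) → p (a + 1) = 0 → (∀ k, 0 ≤ p k) →
  (∀ k, 0 ≤ y k) →
  (∀ k, p (k + 1) ^ 2 ≤ p k * (p (k + 2) + y k)) →
  (∀ k : ℕ, ((k : ℝ) + 1) * y k ≤ 2 * (p (k + 1) - p (k + 2))) →
  (∀ k : ℕ, y (k + 1) * p (k + 1) + 5 / 6 * ((k : ℝ) + 1) * y k ^ 2 ≤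
    ((k : ℝ) + 1) * t * p (k + 1) ^ 2) →
  49 / 20 ≤ (a : ℝ) ^ 2 * t

/-- the longest independent tuples with positive weight have length `a` -/
def Lg {V : Type} (μ : V → ℝ) (N : V → V → V → Prop) (a : ℕ) : Prop :=
  (∃ x : Fin a → V, Ind N x ∧ ∀ i, 0 < μ (x i)) ∧
  ∀ x : Fin (a + 1) → V, (∀ i, 0 < μ (x i)) → ¬ Ind N x

/-- optimal weights are regular -/
def S_MIN : Prop := ∀ (V : Type) [Fintype V] [Nonempty V] (N : V → V → V → Prop), Sy N →
  ∃ μ : V → ℝ, Pr μ ∧ (∀ ν : V → ℝ, Pr ν → tt μ N ≤ tt ν N) ∧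
    ∀ w, 0 < μ w → dg μ N w ≤ tt μ N

/-- the relation on `s` disjoint copies -/
def NC {V : Type} (N : V → V → V → Prop) (s : ℕ) :
    V × Fin s → V × Fin s → V × Fin s → Prop :=
  fun a b c => a.2 = b.2 ∧ b.2 = c.2 ∧ N a.1 b.1 c.1

/-- disjoint copies -/
def S_CO : Prop := ∀ (V : Type) [Fintype V] (μ : V → ℝ) (N : V → V → V → Prop), Sy N →
  Pr μ → ∀ t : ℝ, (∀ w, 0 < μ w → dg μ N w ≤ t) → ∀ a : ℕ, Lg μ N a → ∀ s : ℕ, 1 ≤ s →
    Sy (NC N s) ∧ Pr (fun z : V × Fin s => μ z.1 / s) ∧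
    (∀ w, 0 < μ w.1 / s → dg (fun z : V × Fin s => μ z.1 / s) (NC N s) w ≤ t / s ^ 2) ∧
    Lg (fun z : V × Fin s => μ z.1 / s) (NC N s) (s * a)

/-- for regular weights, large `a` -/
def S_RG : Prop := ∃ A : ℕ, ∀ (V : Type) [Fintype V] (μ : V → ℝ) (N : V → V → V → Prop), Sy N →
  Pr μ → ∀ t : ℝ, (∀ w, 0 < μ w → dg μ N w ≤ t) → ∀ a : ℕ, A ≤ a → Lg μ N a →
    49 / 20 ≤ (a : ℝ) ^ 2 * t

/-- main inequality: no independent tuple of length `m` -/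
def S_MAIN : Prop := ∀ (V : Type) [Fintype V] (N : V → V → V → Prop), Sy N →
  ∀ m : ℕ, 3 ≤ m → (∀ x : Fin m → V, ¬ Ind N x) → ∀ ν : V → ℝ, Pr ν →
    49 / 20 ≤ ((m : ℝ) - 1) ^ 2 * tt ν N

/-! ### the polynomials of the barrier argument -/

/-- the barrier -/
noncomputable def Ph (z : ℝ) : ℝ :=
  123 / 100 * z - 39 / 100 * z ^ 2 + 21 / 100 * z ^ 3 - 5 / 100 * z ^ 4

/-- its derivative -/
noncomputable def dPh (z : ℝ) : ℝ :=
  123 / 100 - 78 / 100 * z + 63 / 100 * z ^ 2 - 20 / 100 * z ^ 3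

/-- the multiplier -/
noncomputable def la (z : ℝ) : ℝ := 1 - 152 / 100 * z + 94 / 100 * z ^ 2

/-- the correction -/
noncomputable def rr (z : ℝ) : ℝ :=
  11 / 4 - 7999 / 2500 * z + 1959 / 1000 * z ^ 2 - 3679 / 5000 * z ^ 3 + 1367 / 5000 * z ^ 4 -
    47 / 1000 * z ^ 5

/-- facts on the polynomials -/
def S_PO : Prop :=
  (∀ z, la z * (1 - Ph z) = 1 - z * rr z) ∧ Ph 1 = 1 ∧
  (∀ z, 0 ≤ z → z ≤ 1 → 0 < la z ∧ 0 ≤ rr z ∧ rr z ≤ 11 / 4 ∧ 0 ≤ Ph z ∧ Ph z ≤ 1 ∧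
    la z ^ 2 * (49 / 20) + 3 / 10 * z * rr z ^ 2 + 3 / 1000 * la z ≤ 2 * la z * dPh z) ∧
  (∀ z z', 0 ≤ z → z ≤ z' → z' ≤ 1 → la z' * (1 - Ph z') ≤ la z * (1 - Ph z) ∧
    dPh z * (z' - z) - 2 / 5 * (z' - z) ^ 2 ≤ Ph z' - Ph z) ∧
  (∀ z, 0 ≤ z → z ≤ 1 / 100 → 49 / 40 * z + z / 1000 ≤ Ph z)

end Pool.Agent.Y354.DC3
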