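import Pool.Agent.Y354.DC3.Dens
import Pool.Agent.Y858.DC3.Ex
import Pool.Agent.Y153.DC3.Cr
import Pool.Agent.Y492.DC3.T1
import Pool.Agent.Y93.DC3.T2
import Pool.Agent.Y349.DC3.J
import Pool.Agent.Y614.DC3.J2
import Pool.Agent.Y185.DC3.J4
import Pool.Agent.Y445.DC3.Po
import Pool.Agent.Y406.DC3.Ch
import Pool.Agent.Y954.DC3.Min
import Pool.Agent.Y901.DC3.Co
import Pool.Agent.Y737.DC3.Rg
import Pool.Agent.Y349.DC3.Main
import Pool.Agent.Y532.DC3.Exb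

/-!
# Large cliques in 3-graphs: assembly
-/

set_option autoImplicit false

namespace Pool.Agent.Y354.DC3

theorem t_ch : S_CH := Pool.Agent.Y406.DC3.s_ch Pool.Agent.Y445.DC3.s_po

theorem t_main : S_MAIN := by
  have al := Pool.Agent.Y858.DC3.s_al
  have ex := Pool.Agent.Y858.DC3.s_ex
  have cr := Pool.Agent.Y153.DC3.s_cr al
  have t1 := Pool.Agent.Y492.DC3.s_t1 al cr
  have t2 := Pool.Agent.Y93.DC3.s_t2
  have j1 := Pool.Agent.Y349.DC3.J.s_j1 al ex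
  have j5 := Pool.Agent.Y349.DC3.J.s_j5 al ex
  have j2 := Pool.Agent.Y614.DC3.s_j2 al ex cr
  have j4 := Pool.Agent.Y185.DC3.s_j4 ex t1 t2
  have rg := Pool.Agent.Y737.DC3.Rg.s_rg j1 j2 j4 j5 t_ch
  exact Pool.Agent.Y349.DC3.s_main rg Pool.Agent.Y954.DC3.s_min Pool.Agent.Y901.DC3.s_co

theorem t_exb : S_EXB := Pool.Agent.Y532.DC3.s_exb t_main

end Pool.Agent.Y354.DC3
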