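import Pool.Agent.Y354.DC3.Gen
import Pool.Agent.Y354.DC3.J4c
import Pool.Agent.Y858.DC3.Ex
import Pool.Agent.Y153.DC3.Cr
import Pool.Agent.Y492.DC3.T1
import Pool.Agent.Y349.DC3.J
import Pool.Agent.Y614.DC3.J2
import Pool.Agent.Y954.DC3.Min
import Pool.Agent.Y901.DC3.Co
import Pool.Agent.Y876.DC4.T2
import Pool.Agent.Y657.DC4.BB
import Pool.Agent.Y258.DC4.PT
import Pool.Agent.Y710.DC4.Up
import Pool.Agent.Y514.DC4.Lo
import Pool.Agent.Y907.DC4.Po2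
import Pool.Agent.Y155.DC4.Ch
import Pool.Agent.Y25.DC4.Rg

/-!
# Large cliques in 3-graphs: assembly for the constant `5/2`
-/

set_option autoImplicit false

namespace Pool.Agent.Y354.DC3

theorem t_rg2 : S_RG2 := by
  have al := Pool.Agent.Y858.DC3.s_al
  have ex := Pool.Agent.Y858.DC3.s_ex
  have cr := Pool.Agent.Y153.DC3.s_cr al
  have t1 := Pool.Agent.Y492.DC3.s_t1 al cr
  have j1 := Pool.Agent.Y349.DC3.J.s_j1 al ex
  have j5 := Pool.Agent.Y349.DC3.J.s_j5 al ex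
  have j2 := Pool.Agent.Y614.DC3.s_j2 al ex cr
  have t2 := Pool.Agent.Y876.DC4.s_t2b
  have dt := Pool.Agent.Y876.DC4.s_dt
  have bb := Pool.Agent.Y657.DC4.s_bb al ex
  have pt := Pool.Agent.Y258.DC4.s_pt al
  have up := Pool.Agent.Y710.DC4.s_up al ex cr pt
  have lo := Pool.Agent.Y514.DC4.s_lo al ex t1 t2
  have j4 := s_j4c dt bb up lo
  have ch := Pool.Agent.Y155.DC4.s_ch2 Pool.Agent.Y907.DC4.s_po2
  exact Pool.Agent.Y25.DC4.s_rg2 j1 j2 j4 j5 ch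

theorem t_rgc : RGc (5 / 2) := t_rg2

theorem t_mainc : MAINc (5 / 2) :=
  main_c t_rgc Pool.Agent.Y954.DC3.s_min Pool.Agent.Y901.DC3.s_co

theorem t_exbc : EXBc (5 / 2) := exb_c (by norm_num) t_mainc

end Pool.Agent.Y354.DC3
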