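import Pool.Agent.Y354.DC3.Stm
import Pool.Agent.H120R2.CliqueDefs

/-!
# Large cliques in 3-graphs: statements for the Turán function
-/

set_option autoImplicit false

open Finset

namespace Pool.Agent.Y354.DC3

open Pool.Agent.H120R2.Clique

/-- the bound for every number of vertices -/
def S_EXB : Prop := ∀ n m : ℕ, 3 ≤ m →
  (ex n 3 m : ℝ) ≤ (1 - 49 / 20 / ((m : ℝ) - 1) ^ 2) * (n : ℝ) ^ 3 / 6

end Pool.Agent.Y354.DC3
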