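import Pool.Agent.Y354.DC3.Stm

/-!
# Large cliques in 3-graphs: statements for the constant `5/2`
-/

set_option autoImplicit false

open Finset
open scoped Classical

namespace Pool.Agent.Y354.DC3

/-- twice the share of the pair `v, u`, only for triangles `w, v, u` -/
noncomputable def tw2 {V : Type} (N : V → V → V → Prop) {k : ℕ} (y : Fin k → V) (w v u : V) : ℕ :=
  if Al N y v ∧ Al N y u ∧ Ad N y v u ∧ Ad N y w v ∧ Ad N y w u then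
    (if Bad N y w v u then 1 else 2) else 0

/-- number of positions `j` for which `y j, u, v` is an induced path with centre `u` with respect
to `y` without `y j` (`v` being allowed) -/
noncomputable def bb {V : Type} (N : V → V → V → Prop) {k : ℕ} (y : Fin (k + 1) → V) (v u : V) :
    ℕ :=
  (univ.filter (fun j : Fin (k + 1) =>
    Al N (rm y j) u ∧ Ad N (rm y j) (y j) u ∧ Ad N (rm y j) v u)).card

/-- triangles -/
noncomputable def TR {V : Type} [Fintype V] (μ : V → ℝ) (N : V → V → V → Prop) (k : ℕ) : ℝ :=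
  E μ N k (fun y => ∑ w, ∑ v, ∑ u, μ w * μ v * μ u *
    I (Al N y w ∧ Al N y v ∧ Al N y u ∧ Ad N y w v ∧ Ad N y w u ∧ Ad N y v u))

/-- induced paths with centre `w` -/
noncomputable def HC {V : Type} [Fintype V] (μ : V → ℝ) (N : V → V → V → Prop) (k : ℕ) : ℝ :=
  E μ N k (fun y => ∑ w, ∑ v, ∑ u, μ w * μ v * μ u *
    I (Al N y w ∧ Al N y v ∧ Al N y u ∧ Ad N y w v ∧ Ad N y w u ∧ ¬ Ad N y v u))

/-- the squares of the degrees count triangles and induced paths -/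
def S_DT : Prop := ∀ (V : Type) [Fintype V] (μ : V → ℝ) (N : V → V → V → Prop) (k : ℕ),
  D μ N k = TR μ N k + HC μ N k

/-- symmetrisation for triangles -/
def S_T2b : Prop := ∀ (V : Type) [Fintype V] (μ : V → ℝ) (N : V → V → V → Prop), Sy N →
  (∀ v, 0 ≤ μ v) → ∀ (k : ℕ) (y : Fin k → V),
    5 / 3 * ∑ w, ∑ v, ∑ u, μ w * μ v * μ u *
      I (Al N y w ∧ Al N y v ∧ Al N y u ∧ Ad N y w v ∧ Ad N y w u ∧ Ad N y v u) ≤
      ∑ w, μ w * I (Al N y w) * ∑ v, ∑ u, μ v * μ u * (tw2 N y w v u : ℝ)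

/-- exchange for induced paths -/
def S_BB : Prop := ∀ (V : Type) [Fintype V] (μ : V → ℝ) (N : V → V → V → Prop), Sy N →
  ∀ k : ℕ, ((k : ℝ) + 1) * HC μ N k =
    E μ N (k + 1) (fun y => ∑ v, μ v * I (Al N y v) * ∑ u, μ u * (bb N y v u : ℝ))

/-- the pointwise inequality for the graph of the pairs related to `u` -/
def S_PT : Prop := ∀ (V : Type) (N : V → V → V → Prop), Sy N →
  ∀ (k : ℕ) (x : Fin (k + 2) → V) (u : V),
    4 / 3 * (1 - I (Al N x u)) + 1 / 3 *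
      ((univ.filter (fun i : Fin (k + 2) => Al N (rm x i) u ∧ Ad N (rm x i) (x i) u)).card : ℝ) ≤
    ∑ i : Fin (k + 2), ((2 - I (Al N (rm x i) u)) * (S N (rm x i) (x i) u : ℝ) -
      5 / 6 * (bb N (rm x i) (x i) u : ℝ))

/-- upper level -/
def S_UP : Prop := ∀ (V : Type) [Fintype V] (μ : V → ℝ) (N : V → V → V → Prop), Sy N →
  Pr μ → ∀ k : ℕ,
    4 / 3 * (P μ N (k + 2) - P μ N (k + 3)) + 1 / 3 * ((k : ℝ) + 2) * Y μ N (k + 1) ≤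
    ((k : ℝ) + 2) * E μ N (k + 1) (fun y => ∑ v, μ v * I (Al N y v) *
      ∑ u, μ u * ((2 - I (Al N y u)) * (S N y v u : ℝ) - 5 / 6 * (bb N y v u : ℝ)))

/-- lower level -/
def S_LO : Prop := ∀ (V : Type) [Fintype V] (μ : V → ℝ) (N : V → V → V → Prop), Sy N →
  (∀ v, 0 ≤ μ v) → ∀ t : ℝ, (∀ w, 0 < μ w → dg μ N w ≤ t) → ∀ k : ℕ,
    E μ N (k + 1) (fun y => ∑ v, μ v * I (Al N y v) *
      ∑ u, μ u * ((2 - I (Al N y u)) * (S N y v u : ℝ))) +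
      5 / 6 * ((k : ℝ) + 1) * TR μ N k ≤ ((k : ℝ) + 1) * t * P μ N (k + 1)

/-- the improved inequality -/
def S_J4c : Prop := ∀ (V : Type) [Fintype V] (μ : V → ℝ) (N : V → V → V → Prop), Sy N →
  Pr μ → ∀ t : ℝ, (∀ w, 0 < μ w → dg μ N w ≤ t) → ∀ k : ℕ,
    1 / 3 * Y μ N (k + 1) + 4 / 3 * (P μ N (k + 2) - P μ N (k + 3)) / ((k : ℝ) + 2) +
      5 / 6 * ((k : ℝ) + 1) * D μ N k ≤ ((k : ℝ) + 1) * t * P μ N (k + 1)

/-! ### the barrier -/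

/-- the quotient of the barrier by `z` -/
noncomputable def ps (z : ℝ) : ℝ := (63 - 26 * z + 19 * z ^ 2 - 6 * z ^ 3) / 50

/-- the barrier -/
noncomputable def Pb (z : ℝ) : ℝ := (63 * z - 26 * z ^ 2 + 19 * z ^ 3 - 6 * z ^ 4) / 50

/-- its derivative -/
noncomputable def dPb (z : ℝ) : ℝ := (63 - 52 * z + 57 * z ^ 2 - 24 * z ^ 3) / 50

/-- the reciprocal of the multiplier -/
noncomputable def mm (z : ℝ) : ℝ := 1 + 17 / 2 * z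

/-- facts on the polynomials -/
def S_PO2 : Prop :=
  (∀ z, Pb z = z * ps z ∧ 1 - Pb z = mm z - z * (17 / 2 + ps z)) ∧ Pb 1 = 1 ∧
  (∀ z, 0 ≤ z → z ≤ 1 → 0 ≤ Pb z ∧ Pb z ≤ 1 ∧ 0 ≤ dPb z ∧ 1 ≤ ps z ∧ ps z ≤ 63 / 50 ∧
    15 / 2 + 1 / 10 * z * (17 / 2 + ps z) ^ 2 + 1 / 200 * mm z ≤
      2 * mm z * dPb z + 4 * ps z * (1 - Pb z)) ∧
  (∀ z z', 0 ≤ z → z ≤ z' → z' ≤ 1 → Pb z ≤ Pb z' ∧
    dPb z * (z' - z) - 13 / 25 * (z' - z) ^ 2 ≤ Pb z' - Pb z) ∧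
  (∀ z, 0 ≤ z → z ≤ 1 / 200 → 5 / 4 * z + z / 200 ≤ Pb z)

/-- the recursion forces `5/2` -/
def S_CH2 : Prop := ∃ A : ℕ, ∀ a : ℕ, A ≤ a → ∀ (p y : ℕ → ℝ) (t : ℝ),
  p 0 = 1 → p 1 = 1 → p 2 = 1 → (∀ k, k ≤ a → 0 < p k) → p (a + 1) = 0 → (∀ k, 0 ≤ p k) →
  (∀ k, 0 ≤ y k) →
  (∀ k, p (k + 1) ^ 2 ≤ p k * (p (k + 2) + y k)) →
  (∀ k : ℕ, ((k : ℝ) + 1) * y k ≤ 2 * (p (k + 1) - p (k + 2))) →
  (∀ k : ℕ, 1 / 3 * y (k + 1) * p (k + 1) +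
      4 / 3 * (p (k + 2) - p (k + 3)) * p (k + 1) / ((k : ℝ) + 2) +
      5 / 6 * ((k : ℝ) + 1) * y k ^ 2 ≤ ((k : ℝ) + 1) * t * p (k + 1) ^ 2) →
  5 / 2 ≤ (a : ℝ) ^ 2 * t

/-- for regular weights, large `a` -/
def S_RG2 : Prop := ∃ A : ℕ, ∀ (V : Type) [Fintype V] (μ : V → ℝ) (N : V → V → V → Prop), Sy N →
  Pr μ → ∀ t : ℝ, (∀ w, 0 < μ w → dg μ N w ≤ t) → ∀ a : ℕ, A ≤ a → Lg μ N a →
    5 / 2 ≤ (a : ℝ) ^ 2 * t

/-- main inequality: no independent tuple of length `m` -/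
def S_MAIN2 : Prop := ∀ (V : Type) [Fintype V] (N : V → V → V → Prop), Sy N →
  ∀ m : ℕ, 3 ≤ m → (∀ x : Fin m → V, ¬ Ind N x) → ∀ ν : V → ℝ, Pr ν →
    5 / 2 ≤ ((m : ℝ) - 1) ^ 2 * tt ν N

end Pool.Agent.Y354.DC3
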